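import Pool.Agent.H8.AV3.Stmts4

/-!
# Module LVA: the local weights
-/

set_option autoImplicit false

namespace Pool.Agent.H19.AV3B

open Polynomial Matrix Pool.AVR Pool.AV3

namespace LVA

theorem tev_map {R S : Type} [CommRing R] [CommRing S] (φ : R →+* S) (c : Fin 10 → R)
    (v : Fin 3 → R) : tev (fun i => φ (c i)) (fun i => φ (v i)) = φ (tev c v) := by
  simp only [tev, map_add, map_mul, map_pow]

theorem jb4_map {R S : Type} [CommRing R] [CommRing S] (φ : R →+* S) (c : Fin 10 → R) :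
    jb4 (fun i => φ (c i)) = φ (jb4 c) := by
  simp only [jb4, map_add, map_sub, map_neg, map_mul, map_pow, map_ofNat]

theorem jb6_map {R S : Type} [CommRing R] [CommRing S] (φ : R →+* S) (c : Fin 10 → R) :
    jb6 (fun i => φ (c i)) = φ (jb6 c) := by
  simp only [jb6, map_add, map_sub, map_neg, map_mul, map_pow, map_ofNat]

theorem Jc_map {R S : Type} [CommRing R] [CommRing S] (φ : R →+* S) (τ : R) (c : Fin 10 → R) :
    Jc (φ τ) (fun i => φ (c i)) = (φ (Jc τ c).1, φ (Jc τ c).2.1, φ (Jc τ c).2.2) := by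
  simp only [Jc, jb4_map, jb6_map, map_add, map_sub, map_mul, map_pow]

theorem md3_Jc {F : Type} [Field F] (M : F[X]) (c : Fin 10 → F[X]) :
    md3 M (Jc (hf F) c) = Jc (AdjoinRoot.mk M (hf F)) (md M c) := by
  unfold md3 md
  exact (Jc_map (AdjoinRoot.mk M) (hf F) c).symm

theorem dsc_md3 {F : Type} [Field F] (M : F[X]) (f : F[X] × F[X] × F[X]) :
    dsc (md3 M f) = AdjoinRoot.mk M (dsc f) := by
  simp only [dsc, md3, disc, map_add, map_sub, map_mul, map_pow, map_ofNat]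

theorem Bx_congr {F : Type} [Field F] (P : F[X]) (N : ℕ) (f g : F[X] × F[X] × F[X])
    (h : md3 (P ^ N) f = md3 (P ^ N) g) : Bx P N f = Bx P N g := by
  have h1 : P ^ N ∣ dsc f ↔ P ^ N ∣ dsc g := by
    rw [← AdjoinRoot.mk_eq_zero, ← AdjoinRoot.mk_eq_zero, ← dsc_md3, ← dsc_md3, h]
  unfold Bx Bw
  rw [h]
  by_cases h2 : P ^ N ∣ dsc g
  · rw [if_pos (h1.2 h2), if_pos h2]
  · rw [if_neg (fun h3 => h2 (h1.1 h3)), if_neg h2]

theorem card_root {F : Type} [Field F] [Finite F] (M : F[X]) (hM : M ≠ 0) :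
    Nat.card (AdjoinRoot M) = Nat.card F ^ M.natDegree := by
  have : Module.Finite F (AdjoinRoot M) := (AdjoinRoot.powerBasis hM).finite
  rw [Module.natCard_eq_pow_finrank (K := F) (V := AdjoinRoot M),
    (AdjoinRoot.powerBasis hM).finrank, AdjoinRoot.powerBasis_dim hM]

theorem md_lft {F : Type} [Field F] (M : F[X]) (x : Fin 10 → AdjoinRoot M) :
    md M (fun i => AVS.lft (x i)) = x := by
  funext i
  exact Function.surjInv_eq AdjoinRoot.mk_surjective (x i)

theorem md_dvd {F : Type} [Field F] (P M : F[X]) (hPM : P ∣ M) (c c' : Fin 10 → F[X])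
    (h : md M c = md M c') : md P c = md P c' := by
  funext i
  have h1 : AdjoinRoot.mk M (c i) = AdjoinRoot.mk M (c' i) := congrFun h i
  rw [AdjoinRoot.mk_eq_mk] at h1
  exact AdjoinRoot.mk_eq_mk.2 (hPM.trans h1)

theorem Bx_ge {F : Type} [Field F] [Finite F] (P : F[X]) (N : ℕ) (f : F[X] × F[X] × F[X])
    (h1 : (1 : ℝ) ≤ Nat.card (AdjoinRoot P)) :
    (Nat.card (AdjoinRoot P) : ℝ) - 1 ≤ Bx P N f := by
  unfold Bx
  split_ifs with h
  · exact le_refl _
  · unfold Bw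
    have h2 : (0 : ℝ) ≤ (Nat.card (AdjoinRoot P) : ℝ) * nET (md3 (P ^ N) f) /
        Nat.card (AdjoinRoot (P ^ N)) := by positivity
    nlinarith

end LVA

open LVA

theorem lva_thm : Pool.AV3.LVAStmt := by
  intro F _ _ h2 P hPm hPi
  have hPN : ∀ N : ℕ, P ^ N ≠ 0 := fun N => pow_ne_zero N hPm.ne_zero
  refine ⟨fun N => ?_, fun N hN c => ?_⟩
  · rw [card_root (P ^ N) (hPN N), natDegree_pow]
  have hmd : md (P ^ N) (fun i => AVS.lft (md (P ^ N) c i)) = md (P ^ N) c :=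
    md_lft (P ^ N) (md (P ^ N) c)
  have hdv : P ∣ P ^ N := dvd_pow_self P (by omega)
  have hmdP : md P (fun i => AVS.lft (md (P ^ N) c i)) = md P c := md_dvd P (P ^ N) hdv _ _ hmd
  have hcard : Nat.card (AdjoinRoot P) = Nat.card F ^ P.natDegree := card_root P hPm.ne_zero
  have hdeg : 0 < P.natDegree := hPi.natDegree_pos
  have hF2 : 2 ≤ Nat.card F := by
    have := Finite.one_lt_card (α := F)
    omega
  have hk2 : 2 ≤ Nat.card (AdjoinRoot P) := by
    rw [hcard]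
    calc 2 ≤ Nat.card F := hF2
      _ = Nat.card F ^ 1 := (pow_one _).symm
      _ ≤ Nat.card F ^ P.natDegree := Nat.pow_le_pow_right (by omega) hdeg
  have hk2r : (2 : ℝ) ≤ Nat.card (AdjoinRoot P) := by exact_mod_cast hk2
  have hBx := Bx_ge P N (Jc (hf F) c) (by linarith)
  have hBpos : 0 < Bx P N (Jc (hf F) c) := by linarith
  refine ⟨?_, ?_, ?_, ?_⟩
  · unfold wb
    rw [hmdP, Bx_congr P N (Jc (hf F) fun i => AVS.lft (md (P ^ N) c i)) (Jc (hf F) c)
      (by rw [md3_Jc, md3_Jc, hmd])]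
  · rw [md3_Jc, md3_Jc, hmdP]
  · unfold wb
    exact div_nonneg (Nat.cast_nonneg _) hBpos.le
  · unfold wb
    have : Finite (AdjoinRoot P) := Nat.finite_of_card_ne_zero (by omega)
    have hg : gdk (md P c) ≤ Nat.card (AdjoinRoot P) ^ 3 := by
      unfold gdk
      have h3 : ({v | Good (md P c) v} : Set (Fin 3 → AdjoinRoot P)).ncard ≤
          (Set.univ : Set (Fin 3 → AdjoinRoot P)).ncard :=
        Set.ncard_le_ncard (Set.subset_univ _) (Set.toFinite _)
      rw [Set.ncard_univ, Nat.card_fun, Nat.card_fin] at h3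
      exact h3
    have hgr : (gdk (md P c) : ℝ) ≤ (Nat.card (AdjoinRoot P) : ℝ) ^ 3 := by exact_mod_cast hg
    have hq : (Nat.card F : ℝ) ^ (2 * P.natDegree) = (Nat.card (AdjoinRoot P) : ℝ) ^ 2 := by
      rw [hcard]
      push_cast
      rw [← pow_mul, mul_comm]
    rw [hq, div_le_iff₀ hBpos]
    set κ : ℝ := (Nat.card (AdjoinRoot P) : ℝ) with hκ
    have h4 : κ ^ 3 ≤ 2 * κ ^ 2 * (κ - 1) := by nlinarith [sq_nonneg κ]
    have h5 : 2 * κ ^ 2 * (κ - 1) ≤ 2 * κ ^ 2 * Bx P N (Jc (hf F) c) :=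
      mul_le_mul_of_nonneg_left hBx (by positivity)
    linarith

end Pool.Agent.H19.AV3B
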