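import Pool.Agent.H8.AV3.Stmts3

/-!
# Module GLB3: a global form with prescribed local lattices
-/

set_option autoImplicit false

namespace Pool.Agent.H19.AV3B

open Polynomial Matrix Pool.AVR Pool.AV3

namespace GLB3

section Gen

variable {K : Type} [Field K]

theorem mul_mem' {I : Set K} {π : K} (h : Dv I π) {x y : K} (hx : x ∈ I) (hy : y ∈ I) :
    x * y ∈ I := by
  obtain ⟨V, hV⟩ := h.val
  rw [← hV] at hx hy ⊢
  exact V.mul_mem _ _ hx hy

/-- The coefficients in the coordinates of the lattice of `g κ`. -/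
theorem frm_eq (c : Fin 10 → K) (g κ : Matrix (Fin 3) (Fin 3) K) (i : Fin 10) :
    tsub c (g * κ) i / (g * κ).det =
      tsub (fun j => tsub c g j / g.det) κ i * (κ.det)⁻¹ := by
  have h : (fun j => tsub c g j / g.det) = (g.det)⁻¹ • tsub c g := by
    funext j
    rw [Pi.smul_apply, smul_eq_mul, div_eq_inv_mul]
  rw [h, tsub_smul_form, Pool.AV3.tsub_mul, Pi.smul_apply, smul_eq_mul, det_mul, div_eq_mul_inv, mul_inv]
  ring

theorem frm_smul (c : Fin 10 → K) (g : Matrix (Fin 3) (Fin 3) K) (r : K) (hr : r ≠ 0)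
    (i : Fin 10) : tsub c (r • g) i / (r • g).det = tsub c g i / g.det := by
  rw [tsub_smul_mat, Pi.smul_apply, smul_eq_mul, det_smul, Fintype.card_fin,
    mul_div_mul_left _ _ (pow_ne_zero 3 hr)]

theorem frm (hGIR : Pool.AV3.GIRStmt) {I : Set K} {π : K} (hD : Dv I π) (c : Fin 10 → K)
    (g κ : Matrix (Fin 3) (Fin 3) K) (hc : ∀ i, tsub c g i / g.det ∈ I) (hκ : AVS.GI I κ)
    (i : Fin 10) : tsub c (g * κ) i / (g * κ).det ∈ I := by
  obtain ⟨h1, h2, h3, h4, h5, h6⟩ := hGIR K I π hD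
  rw [frm_eq]
  refine mul_mem' hD ?_ hκ.2.2.2
  have hz : (0 : K) ∈ I := by
    obtain ⟨V, hV⟩ := hD.val
    rw [← hV]
    exact V.zero_mem
  exact (h5 _ κ 0 0 hc hκ.1 (fun _ => hz) (fun _ => hz)).2.2 i

theorem det_perm {R : Type} [CommRing R] (σ : Equiv.Perm (Fin 3)) (M : Matrix (Fin 3) (Fin 3) R) :
    (M.submatrix id σ).det = M.det ∨ (M.submatrix id σ).det = -M.det := by
  rw [Matrix.det_permute']
  rcases Int.units_eq_one_or (Equiv.Perm.sign σ) with h | h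
  · left
    rw [h]
    simp
  · right
    rw [h]
    simp

theorem gi_perm {I : Set K} {π : K} (hD : Dv I π) (σ : Equiv.Perm (Fin 3))
    (κ : Matrix (Fin 3) (Fin 3) K) (hκ : AVS.GI I κ) : AVS.GI I (κ.submatrix id σ) := by
  refine ⟨fun i j => hκ.1 i (σ j), ?_⟩
  obtain ⟨V, hV⟩ := hD.val
  obtain ⟨h1, h2, h3⟩ := hκ.2
  rw [← hV] at h2 h3 ⊢
  rcases det_perm σ κ with h | h
  · rw [h]
    exact ⟨h1, h2, h3⟩
  · rw [h]
    refine ⟨neg_ne_zero.2 h1, V.neg_mem _ h2, ?_⟩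
    rw [inv_neg]
    exact V.neg_mem _ h3

theorem perm_diag (σ : Equiv.Perm (Fin 3)) (M : Matrix (Fin 3) (Fin 3) K) (v : Fin 3 → K) :
    (M * Matrix.diagonal v).submatrix id σ =
      M.submatrix id σ * Matrix.diagonal (fun j => v (σ j)) := by
  ext i j
  rw [Matrix.submatrix_apply, Matrix.mul_diagonal, Matrix.mul_diagonal, Matrix.submatrix_apply]

theorem mul_perm {R : Type} [CommRing R] (σ : Equiv.Perm (Fin 3))
    (A B : Matrix (Fin 3) (Fin 3) R) :
    (A * B).submatrix id σ = A * B.submatrix id σ := by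
  ext i j
  rw [Matrix.submatrix_apply, Matrix.mul_apply, Matrix.mul_apply]
  rfl

end Gen

/-- Sorting three integers. -/
theorem sort3 (d : Fin 3 → ℤ) : ∃ (σ : Equiv.Perm (Fin 3)) (k : ℤ) (α β : ℕ),
    ∀ j, d (σ j) = k + dv α β j := by
  have hm : Monotone (d ∘ Tuple.sort d) := Tuple.monotone_sort d
  have h01 : d (Tuple.sort d 0) ≤ d (Tuple.sort d 1) := hm (by decide)
  have h12 : d (Tuple.sort d 1) ≤ d (Tuple.sort d 2) := hm (by decide)
  obtain ⟨α, hα⟩ := Int.le.dest h01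
  obtain ⟨β, hβ⟩ := Int.le.dest h12
  refine ⟨Tuple.sort d, d (Tuple.sort d 0), α, β, ?_⟩
  intro j
  fin_cases j
  · simp [dv]
  · simp only [Fin.mk_one, dv, Matrix.cons_val]
    omega
  · simp only [Fin.reduceFinMk, dv, Matrix.cons_val]
    omega

end GLB3

open GLB3

theorem glb3_thm (hGLU : Pool.AVS.GLUStmt) (hPOL : Pool.AVS.POLStmt) (hBIR : Pool.AVR.BIRStmt)
    (hVDI : Pool.AV3.VDIStmt) (hDVP : Pool.AV3.DVPStmt) (hGIR : Pool.AV3.GIRStmt) :
    Pool.AV3.GLB3Stmt := by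
  intro F _ n c S gP gi hS hgP hcn hgi hgii
  obtain ⟨g₁, hg₁, hg₁S, hg₁n⟩ := hGLU F S hS gP fun P hP => (hgP P hP).1
  have hDP : ∀ P : F[X], Irreducible P → Dv (AVS.IP P) (algebraMap F[X] (RatFunc F) P) :=
    hDVP.1 F
  have hDI : Dv (AVS.Iinf F) (RatFunc.X)⁻¹ := hDVP.2.1 F
  -- integral coefficients
  have hint : ∀ i, ∀ P : F[X], P.Monic → Irreducible P → tsub c g₁ i / g₁.det ∈ AVS.IP P := by
    intro i P hM hI
    by_cases hP : P ∈ S
    · obtain ⟨κ, hκ, hgκ⟩ := hg₁S P hP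
      rw [hgκ]
      exact frm hGIR (hDP P hI) c (gP P) κ (hgP P hP).2 hκ i
    · have h := frm hGIR (hDP P hI) c 1 g₁ (fun j => by
        rw [tsub_one, det_one, div_one]
        exact hcn P hM hI hP j) (hg₁n P hM hI hP) i
      rwa [Matrix.one_mul] at h
  choose p₁ hp₁ using fun i => (hPOL F).1 _ (hint i)
  have hE1 : Eqv g₁ c (mp p₁) := by
    refine ⟨isUnit_iff_ne_zero.2 hg₁, ?_⟩
    funext i
    rw [Pi.smul_apply, smul_eq_mul]
    have h := hp₁ i
    rw [div_eq_iff hg₁] at h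
    rw [h, mul_comm]
    rfl
  -- splitting
  obtain ⟨γ, d, κ, hγ, hκ1, hκ2, hκ3, hbir⟩ := hBIR F (gi⁻¹ * g₁) (by
    rw [Matrix.det_mul, Matrix.det_nonsing_inv, Ring.inverse_eq_inv']
    exact mul_ne_zero (inv_ne_zero hgi) hg₁)
  set am := algebraMap F[X] (RatFunc F) with ham
  have hκdet : κ.det ∈ (OInf F : Set (RatFunc F)) := by
    rw [Matrix.det_apply]
    refine (OInf F).sum_mem fun σ _ => ?_
    rw [Units.smul_def, zsmul_eq_mul]
    exact (OInf F).mul_mem (intCast_mem (OInf F) _) ((OInf F).prod_mem fun i _ => hκ1 _ _)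
  have hκ : AVS.GI (AVS.Iinf F) κ := ⟨fun i j => hκ1 i j, hκ2, hκdet, hκ3⟩
  have hgiu : gi * gi⁻¹ = 1 := Matrix.mul_nonsing_inv _ (isUnit_iff_ne_zero.2 hgi)
  have hg1γ : g₁ * γ.map am =
      gi * κ * Matrix.diagonal (fun i => (RatFunc.X : RatFunc F) ^ d i) := by
    have := congrArg (fun M => gi * M) hbir
    simp only [← Matrix.mul_assoc] at this
    rw [hgiu, Matrix.one_mul] at this
    exact this
  -- sorting
  obtain ⟨σ, k, α, β, hσ⟩ := sort3 d
  set γ' := γ.submatrix id σ with hγ'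
  set κ' := κ.submatrix id σ with hκ'
  have hX0 : (RatFunc.X : RatFunc F) ≠ 0 := RatFunc.X_ne_zero
  have hDk : Matrix.diagonal (fun j => (RatFunc.X : RatFunc F) ^ d (σ j)) =
      (RatFunc.X : RatFunc F) ^ k • Dg (dv α β) := by
    unfold Dg
    rw [← Matrix.diagonal_smul]
    congr 1
    funext j
    rw [Pi.smul_apply, smul_eq_mul, hσ j, zpow_add₀ hX0]
  have hgD : g₁ * γ'.map am = (RatFunc.X : RatFunc F) ^ k • (gi * κ' * Dg (dv α β)) := by
    have h1 : γ'.map am = (γ.map am).submatrix id σ := rfl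
    rw [h1, ← mul_perm, hg1γ, perm_diag, hDk, mul_perm, Matrix.mul_smul]
  have hγ'u : IsUnit γ'.det := by
    rcases det_perm σ γ with h | h
    · rw [hγ', h]
      exact hγ
    · rw [hγ', h]
      exact hγ.neg
  obtain ⟨ε, hε⟩ := hγ'u.exists_right_inv
  have hE5 : Eqv γ' p₁ (ε • tsub p₁ γ') := by
    refine ⟨hγ'u, ?_⟩
    rw [smul_smul, hε, one_smul]
  have hE6 : Eqv (γ'.map am) (mp p₁) (mp (ε • tsub p₁ γ')) := hE5.map am
  have hE7 : Eqv (g₁ * γ'.map am) c (mp (ε • tsub p₁ γ')) := hE1.trans hE6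
  have hκ'G : AVS.GI (AVS.Iinf F) κ' := gi_perm hDI σ κ hκ
  have hdγ : (γ'.map am).det = am γ'.det := by
    rw [RingHom.map_det, RingHom.mapMatrix_apply]
  have hγG : ∀ P : F[X], Irreducible P → AVS.GI (AVS.IP P) (γ'.map am) := by
    intro P hP
    have h1 : am γ'.det * am ε = 1 := by rw [← map_mul, hε, map_one]
    refine ⟨fun i j => ((hPOL F).2.2.1 P (γ' i j) hP).1, ?_, ?_, ?_⟩
    · rw [hdγ]
      exact left_ne_zero_of_mul_eq_one h1
    · rw [hdγ]
      exact ((hPOL F).2.2.1 P _ hP).1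
    · rw [hdγ, inv_eq_of_mul_eq_one_right h1]
      exact ((hPOL F).2.2.1 P _ hP).1
  refine ⟨α, β, ε • tsub p₁ γ', g₁ * γ'.map am, κ', k, ?_, hE7, ?_, ?_, hκ'G, hgD⟩
  · -- degrees
    obtain ⟨hV1, hV2, -⟩ := hVDI F n (dv α β) (ε • tsub p₁ γ')
    rw [hV1]
    intro i
    rw [← hV2 i]
    set t : RatFunc F := ((RatFunc.X : RatFunc F) ^ n)⁻¹ with ht
    have hDu : IsUnit (Dg (F := F) (dv α β)).det := by
      unfold Dg
      rw [det_diagonal, isUnit_iff_ne_zero]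
      exact Finset.prod_ne_zero_iff.2 fun j _ => zpow_ne_zero _ hX0
    have hDD : Dg (F := F) (dv α β) * (Dg (dv α β))⁻¹ = 1 := Matrix.mul_nonsing_inv _ hDu
    have hD0 : ((Dg (F := F) (dv α β))⁻¹).det ≠ 0 := by
      rw [Matrix.det_nonsing_inv, Ring.inverse_eq_inv']
      exact inv_ne_zero hDu.ne_zero
    have h1 : tsub (t • mp (ε • tsub p₁ γ')) (Dg (dv α β))⁻¹ i / ((Dg (F := F) (dv α β))⁻¹).det =
        tsub (t • c) ((g₁ * γ'.map am) * (Dg (dv α β))⁻¹) i /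
          ((g₁ * γ'.map am) * (Dg (dv α β))⁻¹).det := by
      rw [frm_eq]
      have h2 : (fun j => tsub (t • c) (g₁ * γ'.map am) j / (g₁ * γ'.map am).det) =
          t • mp (ε • tsub p₁ γ') := by
        funext j
        rw [tsub_smul_form, hE7.2, Pi.smul_apply, Pi.smul_apply, Pi.smul_apply, smul_eq_mul,
          smul_eq_mul, smul_eq_mul, mul_left_comm, mul_div_cancel_left₀ _ hE7.1.ne_zero]
      rw [h2, div_eq_mul_inv]
    rw [h1, hgD, Matrix.smul_mul, Matrix.mul_assoc (gi * κ'), hDD, Matrix.mul_one,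
      frm_smul _ _ _ (zpow_ne_zero _ hX0)]
    exact frm hGIR hDI (t • c) gi κ' hgii hκ'G i
  · intro P hP
    obtain ⟨κ₁, hκ₁, hgκ₁⟩ := hg₁S P hP
    refine ⟨κ₁ * γ'.map am, ?_, ?_⟩
    · exact (hGIR _ _ _ (hDP P (hS P hP).2)).2.1 _ _ hκ₁ (hγG P (hS P hP).2)
    · rw [hgκ₁, Matrix.mul_assoc]
  · intro P hM hI hP
    exact (hGIR _ _ _ (hDP P hI)).2.1 _ _ (hg₁n P hM hI hP) (hγG P hI)

end Pool.Agent.H19.AV3B
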